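import Mathlib
import Pool.Agent.Y624.OG.ODDG

/-!
# The parity of the rank in Galois extensions of number fields of odd degree
-/

set_option autoImplicit false

namespace Pool.Agent.Q97.PT

open WeierstrassCurve

section

variable (K M : Type) [Field K] [NumberField K] [Field M] [NumberField M] [Algebra K M]

open Classical in
/-- the action of the Galois group on the points -/
noncomputable def ga (W : WeierstrassCurve K) :
    DistribMulAction (M ≃ₐ[K] M) (W.baseChange M).toAffine.Point where
  smul σ P := Affine.Point.map (W' := W.toAffine) (σ : M →ₐ[K] M) P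
  one_smul P := by
    show Affine.Point.map (W' := W.toAffine) ((1 : M ≃ₐ[K] M) : M →ₐ[K] M) P = P
    rcases P with _ | ⟨x, y, h⟩
    · rfl
    · rfl
  mul_smul σ τ P := by
    show Affine.Point.map (W' := W.toAffine) ((σ * τ : M ≃ₐ[K] M) : M →ₐ[K] M) P =
      Affine.Point.map (W' := W.toAffine) (σ : M →ₐ[K] M)
        (Affine.Point.map (W' := W.toAffine) (τ : M →ₐ[K] M) P)
    rcases P with _ | ⟨x, y, h⟩
    · rfl
    · rfl
  smul_zero σ := map_zero _
  smul_add σ P Q := map_add _ _ _

open Classical in
lemma bc_self (W : WeierstrassCurve K) : W.baseChange K = W := by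
  apply WeierstrassCurve.ext <;> rfl

open Classical in
/-- the rank of the group of the fixed points -/
lemma fixed_rank [IsGalois K M] (W : WeierstrassCurve K) :
    letI := ga K M W
    Module.finrank ℤ (FixedPoints.addSubgroup (M ≃ₐ[K] M) (W.baseChange M).toAffine.Point) =
      Module.finrank ℤ W.toAffine.Point := by
  letI := ga K M W
  let j : (W.baseChange K).toAffine.Point →+ (W.baseChange M).toAffine.Point :=
    Affine.Point.map (W' := W.toAffine) (Algebra.ofId K M)
  have hj : Function.Injective j := Affine.Point.map_injective _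
  have hmem : ∀ P, j P ∈ FixedPoints.addSubgroup (M ≃ₐ[K] M) (W.baseChange M).toAffine.Point := by
    intro P σ
    rcases P with _ | ⟨x, y, h⟩
    · rfl
    · show Affine.Point.map (W' := W.toAffine) (σ : M →ₐ[K] M)
        (Affine.Point.map (W' := W.toAffine) (Algebra.ofId K M) (Affine.Point.some x y h)) =
        Affine.Point.map (W' := W.toAffine) (Algebra.ofId K M) (Affine.Point.some x y h)
      have e : (σ : M →ₐ[K] M).comp (Algebra.ofId K M) = Algebra.ofId K M :=
        Subsingleton.elim _ _
      rw [Affine.Point.map_map, e]
  let k : (W.baseChange K).toAffine.Point →+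
      FixedPoints.addSubgroup (M ≃ₐ[K] M) (W.baseChange M).toAffine.Point := j.codRestrict _ hmem
  have hk : Function.Bijective k := by
    refine ⟨fun P Q h => hj (congrArg Subtype.val h), ?_⟩
    rintro ⟨P, hP⟩
    rcases P with _ | ⟨x, y, h⟩
    · exact ⟨0, Subtype.ext (map_zero j)⟩
    · have hfix : ∀ σ : M ≃ₐ[K] M, σ x = x ∧ σ y = y := by
        intro σ
        have h1 := hP σ
        have h2 : Affine.Point.map (W' := W.toAffine) (σ : M →ₐ[K] M) (Affine.Point.some x y h) =
          Affine.Point.some x y h := h1
        rw [Affine.Point.map_some] at h2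
        simpa using h2
      obtain ⟨x', hx'⟩ := (IsGalois.mem_range_algebraMap_iff_fixed x).2 fun σ => (hfix σ).1
      obtain ⟨y', hy'⟩ := (IsGalois.mem_range_algebraMap_iff_fixed y).2 fun σ => (hfix σ).2
      have hns : (W.baseChange K).toAffine.Nonsingular x' y' := by
        rw [← Affine.baseChange_nonsingular W.toAffine (f := Algebra.ofId K M)
          (Algebra.ofId K M).injective x' y']
        show (W.baseChange M).toAffine.Nonsingular (algebraMap K M x') (algebraMap K M y')
        rw [hx', hy']
        exact h
      refine ⟨Affine.Point.some x' y' hns, Subtype.ext ?_⟩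
      show Affine.Point.map (W' := W.toAffine) (Algebra.ofId K M) (Affine.Point.some x' y' hns) =
        Affine.Point.some x y h
      rw [Affine.Point.map_some]
      have e1 : Algebra.ofId K M x' = x := hx'
      have e2 : Algebra.ofId K M y' = y := hy'
      simp only [e1, e2]
  have e1 : Module.finrank ℤ (W.baseChange K).toAffine.Point =
      Module.finrank ℤ (FixedPoints.addSubgroup (M ≃ₐ[K] M) (W.baseChange M).toAffine.Point) :=
    (AddEquiv.toIntLinearEquiv (AddEquiv.ofBijective k hk)).finrank_eq
  rw [← e1, bc_self]

open Classical in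
/-- the ranks over `M` and `K` have the same parity -/
theorem even_rank [IsGalois K M] (hodd : Odd (Module.finrank K M)) (W : WeierstrassCurve K)
    (hfin : Module.Finite ℤ (W.baseChange M).toAffine.Point) :
    Even (Module.finrank ℤ (W.baseChange M).toAffine.Point +
      Module.finrank ℤ W.toAffine.Point) := by
  letI := ga K M W
  have hG : Odd (Nat.card (M ≃ₐ[K] M)) := by
    rw [IsGalois.card_aut_eq_finrank]
    exact hodd
  have h := Pool.Agent.Y624.OG.ODDG (M ≃ₐ[K] M) (W.baseChange M).toAffine.Point hG
  rw [fixed_rank K M W] at h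
  exact h

end

end Pool.Agent.Q97.PT
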