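import Mathlib

/-!
# Points of nodal cubics over finite fields and extensions of odd degree
-/

set_option autoImplicit false

namespace Pool.Agent.Q97.PT

open WeierstrassCurve

section

variable {F : Type} [Field F]

/-- the cardinality of the field minus the number of affine points -/
noncomputable def aq (V : WeierstrassCurve F) : ℤ :=
  (Nat.card F : ℤ) - Nat.card {z : F × F // V.toAffine.Equation z.1 z.2}

/-- the node -/
lemma node (V : WeierstrassCurve F) (hD : V.Δ = 0) (h4 : V.c₄ ≠ 0) : ∃ r t : F,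
    V.a₃ + r * V.a₁ + 2 * t = 0 ∧ V.a₄ + 2 * r * V.a₂ - t * V.a₁ + 3 * r ^ 2 = 0 ∧
    V.a₆ + r * V.a₄ + r ^ 2 * V.a₂ + r ^ 3 - t * V.a₃ - t ^ 2 - r * t * V.a₁ = 0 ∧
    V.a₁ ^ 2 + 4 * (V.a₂ + 3 * r) ≠ 0 := by
  have h6 : V.c₆ ≠ 0 := by
    intro h
    have h1 := V.c_relation
    rw [hD, h] at h1
    have h2 : V.c₄ ^ 3 = 0 := by linear_combination -h1
    exact h4 (pow_eq_zero_iff (by norm_num) |>.1 h2)
  obtain ⟨a1, a2, a3, a4, a6⟩ := V
  simp only [WeierstrassCurve.Δ, WeierstrassCurve.c₄, WeierstrassCurve.c₆, WeierstrassCurve.b₂,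
    WeierstrassCurve.b₄, WeierstrassCurve.b₆, WeierstrassCurve.b₈] at hD h4 h6 ⊢
  obtain ⟨C, hC⟩ : ∃ C : F, C = (a1 ^ 2 + 4 * a2) ^ 2 - 24 * (2 * a4 + a1 * a3) := ⟨_, rfl⟩
  have hC0 : C ≠ 0 := by rw [hC]; exact h4
  obtain ⟨X, hX⟩ : ∃ X : F, X = 18 * (a3 ^ 2 + 4 * a6) - (a1 ^ 2 + 4 * a2) * (2 * a4 + a1 * a3) :=
    ⟨_, rfl⟩
  obtain ⟨Y, hY⟩ : ∃ Y : F, Y = (a1 ^ 2 + 4 * a2) * (a1 * a4 - 2 * a2 * a3) +
    3 * (a1 * (a3 ^ 2 - 12 * a6) + 8 * a3 * a4) := ⟨_, rfl⟩
  have e1 : a3 * C + X * a1 + 2 * Y = 0 := by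
    rw [hC, hX, hY]; ring
  have e2 : a4 * C ^ 2 + 2 * a2 * X * C - a1 * Y * C + 3 * X ^ 2 = 0 := by
    rw [hC, hX, hY]; linear_combination (-36) * hD
  have e3 : C ^ 3 * a6 + C ^ 2 * X * a4 + C * X ^ 2 * a2 + X ^ 3 - C ^ 2 * Y * a3 - C * Y ^ 2 -
      C * X * Y * a1 = 0 := by
    rw [hC, hX, hY]
    linear_combination (-(a1 ^ 2 + 4 * a2) ^ 3 + 36 * (a1 ^ 2 + 4 * a2) * (2 * a4 + a1 * a3) -
      216 * (a3 ^ 2 + 4 * a6)) * hD
  have e4 : C * (a1 ^ 2 + 4 * a2) + 12 * X =
      -(-(a1 ^ 2 + 4 * a2) ^ 3 + 36 * (a1 ^ 2 + 4 * a2) * (2 * a4 + a1 * a3) -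
        216 * (a3 ^ 2 + 4 * a6)) := by
    rw [hC, hX]; ring
  refine ⟨X / C, Y / C, ?_, ?_, ?_, ?_⟩
  · have : a3 + X / C * a1 + 2 * (Y / C) = (a3 * C + X * a1 + 2 * Y) / C := by
      field_simp
    rw [this, e1, zero_div]
  · have : a4 + 2 * (X / C) * a2 - Y / C * a1 + 3 * (X / C) ^ 2 =
        (a4 * C ^ 2 + 2 * a2 * X * C - a1 * Y * C + 3 * X ^ 2) / C ^ 2 := by
      field_simp
    rw [this, e2, zero_div]
  · have : a6 + X / C * a4 + (X / C) ^ 2 * a2 + (X / C) ^ 3 - Y / C * a3 - (Y / C) ^ 2 -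
        X / C * (Y / C) * a1 = (C ^ 3 * a6 + C ^ 2 * X * a4 + C * X ^ 2 * a2 + X ^ 3 -
          C ^ 2 * Y * a3 - C * Y ^ 2 - C * X * Y * a1) / C ^ 3 := by
      field_simp
    rw [this, e3, zero_div]
  · intro h
    have h1 : C * (a1 ^ 2 + 4 * a2) + 12 * X = C * (a1 ^ 2 + 4 * (a2 + 3 * (X / C))) := by
      field_simp
      ring
    rw [h, mul_zero, e4] at h1
    exact h6 (neg_eq_zero.1 h1)

/-- the roots of a quadratic polynomial -/
noncomputable def nr (a b : F) : ℕ := Nat.card {t : F // t ^ 2 + a * t - b = 0}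

/-- the number of the points of the cubic with the node at the origin -/
lemma count [Finite F] (a b : F) : (Nat.card {z : F × F // z.2 ^ 2 + a * z.1 * z.2 = z.1 ^ 3 +
    b * z.1 ^ 2} : ℤ) = Nat.card F + 1 - nr a b := by
  classical
  have := Fintype.ofFinite F
  have e : {z : F × F // z.2 ^ 2 + a * z.1 * z.2 = z.1 ^ 3 + b * z.1 ^ 2} ≃
      Option {t : F // ¬ t ^ 2 + a * t - b = 0} := by
    refine ⟨fun z => if h : z.1.1 = 0 then none else some ⟨z.1.2 / z.1.1, ?_⟩,
      fun t => match t with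
        | none => ⟨(0, 0), by ring⟩
        | some t => ⟨(t.1 ^ 2 + a * t.1 - b, t.1 * (t.1 ^ 2 + a * t.1 - b)), by ring⟩, ?_, ?_⟩
    · obtain ⟨⟨x, y⟩, hz⟩ := z
      simp only at hz h ⊢
      intro h1
      have h2 : x ^ 3 = 0 := by
        have h3 : x ^ 2 * ((y / x) ^ 2 + a * (y / x) - b) = y ^ 2 + a * x * y - b * x ^ 2 := by
          field_simp
        rw [h1, mul_zero] at h3
        linear_combination -h3 - hz
      exact h (pow_eq_zero_iff (by norm_num) |>.1 h2)
    · rintro ⟨⟨x, y⟩, hz⟩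
      simp only at hz
      by_cases h : x = 0
      · subst h
        have h2 : y ^ 2 = 0 := by linear_combination hz
        have h3 : y = 0 := pow_eq_zero_iff (by norm_num) |>.1 h2
        subst h3
        simp
      · simp only [h, dite_false]
        apply Subtype.ext
        show ((y / x) ^ 2 + a * (y / x) - b, y / x * ((y / x) ^ 2 + a * (y / x) - b)) = (x, y)
        have h1 : (y / x) ^ 2 + a * (y / x) - b = x := by
          have h3 : x ^ 2 * ((y / x) ^ 2 + a * (y / x) - b) = x ^ 2 * x := by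
            have h4 : x ^ 2 * ((y / x) ^ 2 + a * (y / x) - b) = y ^ 2 + a * x * y - b * x ^ 2 := by
              field_simp
            rw [h4]
            linear_combination hz
          exact mul_left_cancel₀ (pow_ne_zero 2 h) h3
        rw [h1, div_mul_cancel₀ _ h]
    · rintro (_ | ⟨t, ht⟩)
      · simp
      · simp only [ht, dite_false]
        congr 1
        apply Subtype.ext
        show t * (t ^ 2 + a * t - b) / (t ^ 2 + a * t - b) = t
        rw [mul_div_assoc, div_self ht, mul_one]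
  rw [Nat.card_congr e, Nat.card_eq_fintype_card, Fintype.card_option,
    Fintype.card_subtype_compl, nr, Nat.card_eq_fintype_card, Nat.card_eq_fintype_card]
  have h := Fintype.card_subtype_le (fun t : F => t ^ 2 + a * t - b = 0)
  push_cast [Nat.cast_sub h]
  ring

lemma aq_eq [Finite F] (V : WeierstrassCurve F) {r t : F} (h3 : V.a₃ + r * V.a₁ + 2 * t = 0)
    (h4 : V.a₄ + 2 * r * V.a₂ - t * V.a₁ + 3 * r ^ 2 = 0)
    (h6 : V.a₆ + r * V.a₄ + r ^ 2 * V.a₂ + r ^ 3 - t * V.a₃ - t ^ 2 - r * t * V.a₁ = 0) :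
    aq V = nr V.a₁ (V.a₂ + 3 * r) - 1 := by
  have e : Nat.card {z : F × F // V.toAffine.Equation z.1 z.2} =
      Nat.card {z : F × F // z.2 ^ 2 + V.a₁ * z.1 * z.2 = z.1 ^ 3 + (V.a₂ + 3 * r) * z.1 ^ 2} := by
    refine Nat.card_congr (Equiv.subtypeEquiv
      ⟨fun z => (z.1 - r, z.2 - t), fun z => (z.1 + r, z.2 + t), ?_, ?_⟩ ?_)
    · intro z
      ext <;> simp
    · intro z
      ext <;> simp
    · intro z
      rw [WeierstrassCurve.Affine.equation_iff]
      show _ ↔ (z.2 - t) ^ 2 + V.a₁ * (z.1 - r) * (z.2 - t) =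
        (z.1 - r) ^ 3 + (V.a₂ + 3 * r) * (z.1 - r) ^ 2
      constructor
      · intro h
        linear_combination h - (z.2 - t) * h3 + (z.1 - r) * h4 + h6
      · intro h
        linear_combination h + (z.2 - t) * h3 - (z.1 - r) * h4 - h6
  unfold aq
  rw [e, count]
  ring

/-- there are no or two roots -/
lemma nr_cases [Finite F] (a b : F) (h : a ^ 2 + 4 * b ≠ 0) : nr a b = 0 ∨ nr a b = 2 := by
  classical
  by_cases hne : ∃ t : F, t ^ 2 + a * t - b = 0
  · right
    obtain ⟨t, ht⟩ := hne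
    have hd : t ≠ -a - t := by
      intro h1
      apply h
      have h2 : a = -2 * t := by linear_combination h1
      subst h2
      linear_combination (-4) * ht
    have hs : {s : F | s ^ 2 + a * s - b = 0} = {t, -a - t} := by
      ext s
      simp only [Set.mem_ofPred_eq, Set.mem_insert_iff, Set.mem_singleton_iff]
      constructor
      · intro hs
        have h1 : (s - t) * (s - (-a - t)) = 0 := by linear_combination hs - ht
        rcases mul_eq_zero.1 h1 with h1 | h1
        · exact Or.inl (sub_eq_zero.1 h1)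
        · exact Or.inr (sub_eq_zero.1 h1)
      · rintro (rfl | rfl)
        · exact ht
        · linear_combination ht
    have : nr a b = {s : F | s ^ 2 + a * s - b = 0}.ncard := rfl
    rw [this, hs, Set.ncard_pair hd]
  · left
    unfold nr
    rw [Nat.card_eq_zero]
    exact Or.inl ⟨fun t => hne ⟨t.1, t.2⟩⟩

end

section ext

variable {F K : Type} [Field F] [Field K] [Finite F] [Finite K] [Algebra F K]

lemma root_mem (hodd : Odd (Module.finrank F K)) (a b : F) (t : K)
    (h : t ^ 2 + algebraMap F K a * t - algebraMap F K b = 0) : t ∈ (algebraMap F K).range := by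
  have : FiniteDimensional F K := Module.finite_of_finrank_pos hodd.pos
  obtain ⟨p, hp⟩ : ∃ p : Polynomial F, p = Polynomial.X ^ 2 + Polynomial.C a * Polynomial.X -
    Polynomial.C b := ⟨_, rfl⟩
  have hdeg : p.natDegree = 2 := by
    rw [hp]; compute_degree!
  have hp0 : p ≠ 0 := by
    intro h
    rw [h] at hdeg
    simp at hdeg
  have hroot : Polynomial.aeval t p = 0 := by
    rw [hp]
    simpa using h
  have h1 : (minpoly F t).natDegree ≤ 2 := by
    rw [← hdeg]
    exact Polynomial.natDegree_le_of_dvd (minpoly.dvd F t hroot) hp0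
  have hint : IsIntegral F t := IsIntegral.of_finite F t
  have h2 : (minpoly F t).natDegree ∣ Module.finrank F K := minpoly.degree_dvd hint
  have h3 : Odd (minpoly F t).natDegree := Odd.of_dvd_nat hodd h2
  have h4 : (minpoly F t).natDegree = 1 := by
    obtain ⟨k, hk⟩ := h3
    omega
  exact (minpoly.natDegree_eq_one_iff).1 h4

lemma nr_ext (hodd : Odd (Module.finrank F K)) (a b : F) :
    nr (algebraMap F K a) (algebraMap F K b) = nr a b := by
  unfold nr
  symm
  refine Nat.card_congr (Equiv.ofBijective (fun t => ⟨algebraMap F K t.1, ?_⟩) ⟨?_, ?_⟩)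
  · have := congrArg (algebraMap F K) t.2
    simpa using this
  · intro s t hst
    apply Subtype.ext
    exact (algebraMap F K).injective (congrArg Subtype.val hst)
  · rintro ⟨t, ht⟩
    obtain ⟨s, rfl⟩ := root_mem hodd a b t ht
    refine ⟨⟨s, ?_⟩, rfl⟩
    apply (algebraMap F K).injective
    simpa using ht

/-- extensions of odd degree do not change the reduction type -/
theorem aq_ext (hodd : Odd (Module.finrank F K)) (V : WeierstrassCurve F) (hD : V.Δ = 0)
    (h4 : V.c₄ ≠ 0) : aq (V.map (algebraMap F K)) = aq V := by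
  obtain ⟨r, t, e3, e4, e6, -⟩ := node V hD h4
  rw [aq_eq V e3 e4 e6, aq_eq (V.map (algebraMap F K)) (r := algebraMap F K r)
    (t := algebraMap F K t)]
  · have : nr (V.map (algebraMap F K)).a₁ ((V.map (algebraMap F K)).a₂ + 3 * algebraMap F K r) =
        nr (algebraMap F K V.a₁) (algebraMap F K (V.a₂ + 3 * r)) := by
      simp [map_ofNat]
    rw [this, nr_ext hodd]
  · have := congrArg (algebraMap F K) e3
    simpa [map_ofNat] using this
  · have := congrArg (algebraMap F K) e4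
    simpa [map_ofNat] using this
  · have := congrArg (algebraMap F K) e6
    simpa [map_ofNat] using this

lemma aq_pm (V : WeierstrassCurve F) (hD : V.Δ = 0) (h4 : V.c₄ ≠ 0) : -aq V = 1 ∨ -aq V = -1 := by
  obtain ⟨r, t, e3, e4, e6, e⟩ := node V hD h4
  rw [aq_eq V e3 e4 e6]
  rcases nr_cases V.a₁ (V.a₂ + 3 * r) e with h | h
  · left; rw [h]; norm_num
  · right; rw [h]; norm_num

/-- squares in extensions of odd degree -/
lemma sq_ext (hodd : Odd (Module.finrank F K)) (a : F) :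
    IsSquare (algebraMap F K a) ↔ IsSquare a := by
  constructor
  · rintro ⟨t, ht⟩
    obtain ⟨s, rfl⟩ := root_mem hodd 0 a t (by rw [ht]; simp; ring)
    refine ⟨s, (algebraMap F K).injective ?_⟩
    rw [ht, map_mul]
  · exact fun h => h.map _

end ext

end Pool.Agent.Q97.PT
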