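import Mathlib
import Pool.Agent.Q97.PT.Nodal

/-!
# Root numbers in extensions of number fields of odd degree
-/

set_option autoImplicit false

namespace Pool.Agent.Q97.PT

open Finset NumberField Ideal

section defs

variable {K : Type} [Field K] [NumberField K]

/-- `V` is an equation of `W` with coefficients in the ring of integers -/
def ModelOfK (W : WeierstrassCurve K) (V : WeierstrassCurve (𝓞 K)) : Prop :=
  ∃ C : WeierstrassCurve.VariableChange K, C • W = V.map (algebraMap (𝓞 K) K)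

/-- `a_P`: the norm of `P` minus the number of the affine points modulo `P` -/
noncomputable def aP (V : WeierstrassCurve (𝓞 K)) (P : Ideal (𝓞 K)) : ℤ :=
  (Nat.card (𝓞 K ⧸ P) : ℤ) - Nat.card {z : (𝓞 K ⧸ P) × (𝓞 K ⧸ P) //
    (V.map (Ideal.Quotient.mk P)).toAffine.Equation z.1 z.2}

/-- the quadratic twist -/
def twistK (V : WeierstrassCurve (𝓞 K)) (d : 𝓞 K) : WeierstrassCurve K :=
  ⟨0, (d : K) * (V.b₂ : K), 0, 8 * (d : K) ^ 2 * (V.b₄ : K), 16 * (d : K) ^ 3 * (V.b₆ : K)⟩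

open Classical in
/-- the local root number at `P` -/
def LocalRootK (W : WeierstrassCurve K) (P : Ideal (𝓞 K)) (w : ℤ) : Prop :=
  (∃ V : WeierstrassCurve (𝓞 K), ModelOfK W V ∧ V.Δ ∉ P ∧ w = 1) ∨
  (∃ V : WeierstrassCurve (𝓞 K), ModelOfK W V ∧ V.Δ ∈ P ∧ V.c₄ ∉ P ∧ w = -aP V P) ∨
  ((2 : 𝓞 K) ∉ P ∧ ∃ (V : WeierstrassCurve (𝓞 K)) (d : 𝓞 K) (n : ℕ), Odd n ∧ d ∈ P ^ n ∧
    d ∉ P ^ (n + 1) ∧ (∃ C : WeierstrassCurve.VariableChange K, C • W = twistK V d) ∧ V.Δ ∉ P ∧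
    w = if IsSquare (-1 : 𝓞 K ⧸ P) then 1 else -1)

/-- the root number over `K` -/
def RootNumberK (W : WeierstrassCurve K) (w : ℤ) : Prop :=
  ∃ f : Ideal (𝓞 K) → ℤ, (∀ P : Ideal (𝓞 K), P.IsPrime → P ≠ ⊥ → LocalRootK W P (f P)) ∧
    ∃ S : Finset (Ideal (𝓞 K)), (∀ P ∈ S, P.IsPrime ∧ P ≠ ⊥) ∧
      (∀ P : Ideal (𝓞 K), P.IsPrime → P ≠ ⊥ → P ∉ S → f P = 1) ∧
      w = (-1) ^ Nat.card (InfinitePlace K) * ∏ P ∈ S, f P

end defs

/-- The extension `K/F` of number fields has odd degree, all its local degrees are odd, and the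
numbers of the infinite places of `K` and `F` have the same parity. -/
structure LO (F K : Type) [Field F] [NumberField F] [Field K] [NumberField K] [Algebra F K] :
    Prop where
  deg : Odd (Module.finrank F K)
  loc : ∀ P : Ideal (𝓞 K), P.IsPrime → P ≠ ⊥ →
    Odd (P.ramificationIdx (𝓞 F)) ∧ Odd (P.inertiaDeg (𝓞 F))
  inf : Even (Nat.card (InfinitePlace K) + Nat.card (InfinitePlace F))

section

variable {F K M : Type} [Field F] [NumberField F] [Field K] [NumberField K] [Field M]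
  [NumberField M] [Algebra F K] [Algebra F M] [Algebra K M] [IsScalarTower F K M]

lemma under_ne_bot (P : Ideal (𝓞 K)) (h : P ≠ ⊥) : P.under (𝓞 F) ≠ ⊥ := by
  intro h1
  exact h (Ideal.eq_bot_of_comap_eq_bot h1)

lemma isMax (P : Ideal (𝓞 K)) (h1 : P.IsPrime) (h : P ≠ ⊥) : P.IsMaximal := h1.isMaximal h

lemma over_ne_bot (Q : Ideal (𝓞 F)) (hQ : Q ≠ ⊥) (P : Ideal (𝓞 K)) (h : P.LiesOver Q) : P ≠ ⊥ := by
  rintro rfl
  apply hQ
  rw [h.over, Ideal.under_def]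
  rw [eq_bot_iff]
  intro x hx
  rw [Ideal.mem_comap, Ideal.mem_bot] at hx
  rw [Ideal.mem_bot]
  exact (map_eq_zero_iff _ (FaithfulSMul.algebraMap_injective (𝓞 F) (𝓞 K))).1 hx

lemma exists_over (Q : Ideal (𝓞 F)) (h1 : Q.IsPrime) : ∃ P : Ideal (𝓞 K), P.IsPrime ∧
    P.LiesOver Q := by
  obtain ⟨P⟩ := (inferInstance : Nonempty (Q.primesOver (𝓞 K)))
  exact ⟨P.1, P.2.1, P.2.2⟩

lemma odd_gal [IsGalois K M] (hodd : Odd (Module.finrank K M)) (P : Ideal (𝓞 M)) (h1 : P.IsPrime) :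
    Odd (P.ramificationIdx (𝓞 K)) ∧ Odd (P.inertiaDeg (𝓞 K)) := by
  obtain ⟨Q, hQ⟩ : ∃ Q : Ideal (𝓞 K), Q = P.under (𝓞 K) := ⟨_, rfl⟩
  have hprime : Q.IsPrime := by rw [hQ]; infer_instance
  have hlo : P.LiesOver Q := ⟨hQ⟩
  have h := ncard_primesOver_mul_ramificationIdxIn_mul_inertiaDegIn Q (𝓞 M) Gal(M/K)
  rw [IsGaloisGroup.card_eq_finrank Gal(M/K) K M] at h
  rw [← h] at hodd
  obtain ⟨-, h2⟩ := Nat.odd_mul.1 hodd
  obtain ⟨h3, h4⟩ := Nat.odd_mul.1 h2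
  rw [ramificationIdxIn_eq_ramificationIdx Q P Gal(M/K)] at h3
  rw [inertiaDegIn_eq_inertiaDeg Q P Gal(M/K)] at h4
  exact ⟨h3, h4⟩

lemma inf_gal [IsGalois K M] (hodd : Odd (Module.finrank K M)) :
    Even (Nat.card (InfinitePlace M) + Nat.card (InfinitePlace K)) := by
  have : IsUnramifiedAtInfinitePlaces K M := IsUnramifiedAtInfinitePlaces_of_odd_finrank hodd
  have h := IsUnramifiedAtInfinitePlaces.card_infinitePlace K M
  rw [Nat.card_eq_fintype_card, Nat.card_eq_fintype_card, h]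
  obtain ⟨k, hk⟩ := hodd
  rw [hk]
  refine ⟨(k + 1) * Fintype.card (InfinitePlace K), ?_⟩
  ring

lemma LO.refl : LO F F where
  deg := by
    rw [Module.finrank_self]
    exact odd_one
  loc := fun P h1 _ => odd_gal (by rw [Module.finrank_self]; exact odd_one) P h1
  inf := ⟨_, rfl⟩

lemma LO.up (h : LO F K) [IsGalois K M] (hodd : Odd (Module.finrank K M)) : LO F M where
  deg := by
    rw [← Module.finrank_mul_finrank F K M]
    exact h.deg.mul hodd
  loc := by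
    intro P h1 h2
    obtain ⟨h3, h4⟩ := odd_gal (K := K) hodd P h1
    obtain ⟨h5, h6⟩ := h.loc (P.under (𝓞 K)) inferInstance (under_ne_bot P h2)
    have hlo : P.LiesOver (P.under (𝓞 K)) := ⟨rfl⟩
    rw [ramificationIdx_tower (R := 𝓞 F) (P.under (𝓞 K)) P,
      inertiaDeg_tower (R := 𝓞 F) (P.under (𝓞 K)) P]
    exact ⟨h5.mul h3, h6.mul h4⟩
  inf := by
    have h1 := inf_gal (K := K) (M := M) hodd
    have h2 := h.inf
    have h3 := h1.add h2
    obtain ⟨k, hk⟩ := h3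
    exact ⟨k - Nat.card (InfinitePlace K), by omega⟩

lemma LO.down (h : LO F M) [IsGalois K M] (hodd : Odd (Module.finrank K M)) : LO F K where
  deg := by
    have h1 := h.deg
    rw [← Module.finrank_mul_finrank F K M] at h1
    exact (Nat.odd_mul.1 h1).1
  loc := by
    intro P h1 h2
    obtain ⟨R, h3, h4⟩ := exists_over (K := M) P h1
    obtain ⟨h5, h6⟩ := h.loc R h3 (over_ne_bot P h2 R h4)
    exact ⟨Odd.of_dvd_nat h5 (ramificationIdx_below_dvd P R),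
      Odd.of_dvd_nat h6 (inertiaDeg_below_dvd P R)⟩
  inf := by
    have h1 := inf_gal (K := K) (M := M) hodd
    have h2 := h.inf
    have h3 := h1.add h2
    obtain ⟨k, hk⟩ := h3
    exact ⟨k - Nat.card (InfinitePlace M), by omega⟩

lemma odd_ncard (h : LO F K) (Q : Ideal (𝓞 F)) (h1 : Q.IsPrime) (h2 : Q ≠ ⊥) :
    Odd (primesOver Q (𝓞 K)).ncard := by
  classical
  have hm := h1.isMaximal h2
  have : Fintype (primesOver Q (𝓞 K)) := (Algebra.QuasiFinite.finite_primesOver Q).fintype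
  have h3 := sum_ramification_inertia_eq_finrank Q (𝓞 K)
  have h4 : Module.finrank (𝓞 F) (𝓞 K) = Module.finrank F K := by
    exact (IsFractionRing.finrank_eq (𝓞 F) F (𝓞 K) K).symm
  have h5 := h.deg
  rw [← h4, ← h3, Finset.odd_sum_iff_odd_card_odd] at h5
  rw [← Set.fintypeCard_eq_ncard]
  convert h5 using 1
  rw [Finset.filter_true_of_mem, Finset.card_univ]
  intro P _
  obtain ⟨h6, h7⟩ := h.loc P.1 P.2.1 (over_ne_bot Q h2 P.1 P.2.2)
  exact h6.mul h7

end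

end Pool.Agent.Q97.PT
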