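import Mathlib
import Pool.Agent.Q97.PT.Defs

/-!
# Root numbers in extensions of number fields of odd degree, the transfer
-/

set_option autoImplicit false

namespace Pool.Agent.Q97.PT

open Finset NumberField Ideal

section

variable {F K : Type} [Field F] [NumberField F] [Field K] [NumberField K] [Algebra F K]

lemma model_map {W : WeierstrassCurve F} {V : WeierstrassCurve (𝓞 F)} (h : ModelOfK W V) :
    ModelOfK (W.map (algebraMap F K)) (V.map (algebraMap (𝓞 F) (𝓞 K))) := by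
  obtain ⟨C, hC⟩ := h
  refine ⟨C.map (algebraMap F K), ?_⟩
  rw [WeierstrassCurve.map_variableChange, hC, WeierstrassCurve.map_map, WeierstrassCurve.map_map]
  congr 1

lemma mem_under (P : Ideal (𝓞 K)) (x : 𝓞 F) :
    algebraMap (𝓞 F) (𝓞 K) x ∈ P ↔ x ∈ P.under (𝓞 F) := by
  rw [under_def, mem_comap]

/-- the residue fields -/
lemma aP_eq (V : WeierstrassCurve (𝓞 K)) (P : Ideal (𝓞 K)) [P.IsMaximal] :
    letI : Field (𝓞 K ⧸ P) := Ideal.Quotient.field P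
    aP V P = aq (V.map (Ideal.Quotient.mk P)) := rfl

lemma finite_quot (P : Ideal (𝓞 K)) (h : P ≠ ⊥) : Finite (𝓞 K ⧸ P) :=
  Ideal.finiteQuotientOfFreeOfNeBot P h

section loc

variable (P : Ideal (𝓞 K)) (Q : Ideal (𝓞 F)) [P.IsMaximal] [Q.IsMaximal] [P.LiesOver Q]

lemma odd_quot (h : Odd (P.inertiaDeg (𝓞 F))) :
    Odd (Module.finrank (𝓞 F ⧸ Q) (𝓞 K ⧸ P)) := by
  rw [← inertiaDeg_eq_of_isMaximal Q P]
  exact h

lemma aP_ext (h : Odd (P.inertiaDeg (𝓞 F))) (hP : P ≠ ⊥) (hQ : Q ≠ ⊥)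
    (V : WeierstrassCurve (𝓞 F)) (hD : V.Δ ∈ Q) (h4 : V.c₄ ∉ Q) :
    aP (V.map (algebraMap (𝓞 F) (𝓞 K))) P = aP V Q := by
  let _ : Field (𝓞 K ⧸ P) := Ideal.Quotient.field P
  let _ : Field (𝓞 F ⧸ Q) := Ideal.Quotient.field Q
  have : Finite (𝓞 K ⧸ P) := finite_quot P hP
  have : Finite (𝓞 F ⧸ Q) := finite_quot Q hQ
  have ho := odd_quot P Q h
  rw [aP_eq, aP_eq]
  have e : (V.map (algebraMap (𝓞 F) (𝓞 K))).map (Ideal.Quotient.mk P) =
      (V.map (Ideal.Quotient.mk Q)).map (algebraMap (𝓞 F ⧸ Q) (𝓞 K ⧸ P)) := by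
    rw [WeierstrassCurve.map_map, WeierstrassCurve.map_map]
    congr 1
  rw [e]
  refine aq_ext ho _ ?_ ?_
  · rw [WeierstrassCurve.map_Δ]
    exact Ideal.Quotient.eq_zero_iff_mem.2 hD
  · rw [WeierstrassCurve.map_c₄]
    exact fun h => h4 (Ideal.Quotient.eq_zero_iff_mem.1 h)

lemma sq_ext' (h : Odd (P.inertiaDeg (𝓞 F))) (hP : P ≠ ⊥) (hQ : Q ≠ ⊥) :
    IsSquare (-1 : 𝓞 K ⧸ P) ↔ IsSquare (-1 : 𝓞 F ⧸ Q) := by
  let _ : Field (𝓞 K ⧸ P) := Ideal.Quotient.field P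
  let _ : Field (𝓞 F ⧸ Q) := Ideal.Quotient.field Q
  have : Finite (𝓞 K ⧸ P) := finite_quot P hP
  have : Finite (𝓞 F ⧸ Q) := finite_quot Q hQ
  have ho := odd_quot P Q h
  have h1 := sq_ext ho (-1 : 𝓞 F ⧸ Q)
  rw [map_neg, map_one] at h1
  exact h1

end loc

lemma pow_mem (P : Ideal (𝓞 K)) (Q : Ideal (𝓞 F)) (h1 : P.IsPrime) (hP : P ≠ ⊥) (hQ : Q.IsPrime)
    (hlo : P.LiesOver Q) (hQ0 : Q ≠ ⊥) {d : 𝓞 F} {n : ℕ} (h2 : d ∈ Q ^ n) (h3 : d ∉ Q ^ (n + 1)) :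
    algebraMap (𝓞 F) (𝓞 K) d ∈ P ^ (P.ramificationIdx (𝓞 F) * n) ∧
      algebraMap (𝓞 F) (𝓞 K) d ∉ P ^ (P.ramificationIdx (𝓞 F) * n + 1) := by
  classical
  have hinj : Function.Injective (algebraMap (𝓞 F) (𝓞 K)) :=
    FaithfulSMul.algebraMap_injective (𝓞 F) (𝓞 K)
  have hne : Q.map (algebraMap (𝓞 F) (𝓞 K)) ≠ ⊥ := fun h =>
    hQ0 ((Ideal.map_eq_bot_iff_of_injective hinj).1 h)
  have hPp : Prime P := prime_of_isPrime hP h1
  have hQp : Prime Q := prime_of_isPrime hQ0 hQ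
  have he := IsDedekindDomain.ramificationIdx_eq_multiplicity (q := P) Q hne
  have hfin : FiniteMultiplicity P (Q.map (algebraMap (𝓞 F) (𝓞 K))) :=
    FiniteMultiplicity.of_prime_left hPp hne
  obtain ⟨e, hee⟩ : ∃ e : ℕ, e = P.ramificationIdx (𝓞 F) := ⟨_, rfl⟩
  rw [← hee] at he ⊢
  have hem : emultiplicity P (Q.map (algebraMap (𝓞 F) (𝓞 K))) = (e : ℕ∞) := by
    rw [he]
    exact hfin.emultiplicity_eq_multiplicity
  constructor
  · have h4 : P ^ e ∣ Q.map (algebraMap (𝓞 F) (𝓞 K)) := by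
      rw [he]
      exact pow_multiplicity_dvd _ _
    have h5 : Q.map (algebraMap (𝓞 F) (𝓞 K)) ≤ P ^ e := dvd_iff_le.1 h4
    have h6 : (Q ^ n).map (algebraMap (𝓞 F) (𝓞 K)) ≤ P ^ (e * n) := by
      rw [Ideal.map_pow, pow_mul]
      exact Ideal.pow_right_mono h5 n
    exact h6 (Ideal.mem_map_of_mem _ h2)
  · intro h4
    have h5 : Q ^ n ∣ span {d} := Ideal.dvd_span_singleton.2 h2
    obtain ⟨I, hI⟩ := h5
    have h6 : ¬ P ∣ I.map (algebraMap (𝓞 F) (𝓞 K)) := by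
      intro h
      have h7 : I ≤ Q := by
        rw [hlo.over, under_def, ← Ideal.map_le_iff_le_comap]
        exact dvd_iff_le.1 h
      obtain ⟨J, hJ⟩ := dvd_iff_le.2 h7
      apply h3
      rw [← Ideal.dvd_span_singleton, hI, hJ, pow_succ]
      exact ⟨J, by ring⟩
    have h7 : P ^ (e * n + 1) ∣ span {algebraMap (𝓞 F) (𝓞 K) d} := Ideal.dvd_span_singleton.2 h4
    have h8 : span {algebraMap (𝓞 F) (𝓞 K) d} =
        (Q.map (algebraMap (𝓞 F) (𝓞 K))) ^ n * I.map (algebraMap (𝓞 F) (𝓞 K)) := by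
      rw [← Ideal.map_pow, ← Ideal.map_mul, ← hI, Ideal.map_span, Set.image_singleton]
    rw [h8] at h7
    have h9 := le_emultiplicity_of_pow_dvd h7
    rw [emultiplicity_mul hPp, emultiplicity_pow hPp, hem, emultiplicity_eq_zero.2 h6,
      add_zero] at h9
    have h10 : e * n + 1 ≤ n * e := by exact_mod_cast h9
    have h11 : e * n = n * e := mul_comm _ _
    omega

theorem loc_up (h : LO F K) {W : WeierstrassCurve F} (P : Ideal (𝓞 K)) (h1 : P.IsPrime)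
    (h2 : P ≠ ⊥) {w : ℤ} (hw : LocalRootK W (P.under (𝓞 F)) w) :
    LocalRootK (W.map (algebraMap F K)) P w := by
  classical
  obtain ⟨Q, hQ⟩ : ∃ Q : Ideal (𝓞 F), Q = P.under (𝓞 F) := ⟨_, rfl⟩
  have hQ1 : Q.IsPrime := by rw [hQ]; infer_instance
  have hQ0 : Q ≠ ⊥ := by rw [hQ]; exact under_ne_bot P h2
  have hlo : P.LiesOver Q := ⟨hQ⟩
  have hPm : P.IsMaximal := h1.isMaximal h2
  have hQm : Q.IsMaximal := hQ1.isMaximal hQ0
  obtain ⟨he, hf⟩ := h.loc P h1 h2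
  rw [← hQ] at hw
  have hmem : ∀ x : 𝓞 F, algebraMap (𝓞 F) (𝓞 K) x ∈ P ↔ x ∈ Q := fun x => by
    rw [mem_under, ← hQ]
  rcases hw with ⟨V, hV, hd, hw⟩ | ⟨V, hV, hd, h4, hw⟩ | ⟨h2', V, d, n, hn, hd1, hd2, ⟨C, hC⟩, hd, hw⟩
  · refine Or.inl ⟨_, model_map hV, ?_, hw⟩
    rw [WeierstrassCurve.map_Δ, hmem]
    exact hd
  · refine Or.inr (Or.inl ⟨_, model_map hV, ?_, ?_, ?_⟩)
    · rw [WeierstrassCurve.map_Δ, hmem]
      exact hd
    · rw [WeierstrassCurve.map_c₄, hmem]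
      exact h4
    · rw [hw, aP_ext P Q hf h2 hQ0 V hd h4]
  · obtain ⟨hp1, hp2⟩ := pow_mem P Q h1 h2 hQ1 hlo hQ0 hd1 hd2
    refine Or.inr (Or.inr ⟨?_, V.map (algebraMap (𝓞 F) (𝓞 K)), algebraMap (𝓞 F) (𝓞 K) d, _,
      he.mul hn, hp1, hp2, ⟨C.map (algebraMap F K), ?_⟩, ?_, ?_⟩)
    · intro h
      apply h2'
      rw [← hmem, map_ofNat]
      exact h
    · rw [WeierstrassCurve.map_variableChange, hC]
      have key : ∀ x : 𝓞 F, algebraMap F K (x : F) = ((algebraMap (𝓞 F) (𝓞 K) x : 𝓞 K) : K) :=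
        fun x => rfl
      unfold twistK
      ext
      · simp
      · simp [key]
      · simp
      · simp [key, map_ofNat]
      · simp [key, map_ofNat]
    · rw [WeierstrassCurve.map_Δ, hmem]
      exact hd
    · rw [hw]
      have := sq_ext' P Q hf h2 hQ0
      by_cases h6 : IsSquare (-1 : 𝓞 F ⧸ Q)
      · rw [if_pos h6, if_pos (this.2 h6)]
      · rw [if_neg h6, if_neg (fun h => h6 (this.1 h))]

lemma loc_pm {W : WeierstrassCurve F} (Q : Ideal (𝓞 F)) (h1 : Q.IsPrime) (h2 : Q ≠ ⊥) {w : ℤ}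
    (hw : LocalRootK W Q w) : w = 1 ∨ w = -1 := by
  classical
  have hQm : Q.IsMaximal := h1.isMaximal h2
  rcases hw with ⟨V, hV, hd, hw⟩ | ⟨V, hV, hd, h4, hw⟩ | ⟨h2', V, d, n, hn, hd1, hd2, hC, hd, hw⟩
  · exact Or.inl hw
  · letI : Field (𝓞 F ⧸ Q) := Ideal.Quotient.field Q
    have : Finite (𝓞 F ⧸ Q) := finite_quot Q h2
    rw [hw, aP_eq]
    refine aq_pm _ ?_ ?_
    · rw [WeierstrassCurve.map_Δ]
      exact Ideal.Quotient.eq_zero_iff_mem.2 hd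
    · rw [WeierstrassCurve.map_c₄]
      exact fun h => h4 (Ideal.Quotient.eq_zero_iff_mem.1 h)
  · rw [hw]
    split_ifs
    · exact Or.inl rfl
    · exact Or.inr rfl

/-- **Theorem.** The root number does not change in the extension. -/
theorem root_up (h : LO F K) {W : WeierstrassCurve F} {w : ℤ} (hw : RootNumberK W w) :
    RootNumberK (W.map (algebraMap F K)) w := by
  classical
  obtain ⟨f, hf, S, hS, h1, h2⟩ := hw
  have hfin : ∀ Q ∈ S, (primesOver Q (𝓞 K)).Finite := fun Q hQ => by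
    have := (hS Q hQ).1
    exact Algebra.QuasiFinite.finite_primesOver Q
  obtain ⟨T, hT⟩ : ∃ T : Ideal (𝓞 F) → Finset (Ideal (𝓞 K)), ∀ Q ∈ S,
      (T Q : Set (Ideal (𝓞 K))) = primesOver Q (𝓞 K) := by
    refine ⟨fun Q => if h : Q ∈ S then (hfin Q h).toFinset else ∅, fun Q hQ => ?_⟩
    simp only [dif_pos hQ, Set.Finite.coe_toFinset]
  have hmem : ∀ Q ∈ S, ∀ P, P ∈ T Q ↔ P ∈ primesOver Q (𝓞 K) := by
    intro Q hQ P
    rw [← hT Q hQ, mem_coe]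
  have hund : ∀ Q ∈ S, ∀ P ∈ T Q, P.under (𝓞 F) = Q := by
    intro Q hQ P hP
    rw [hmem Q hQ] at hP
    exact hP.2.over.symm
  refine ⟨fun P => f (P.under (𝓞 F)), fun P hP1 hP2 => loc_up h P hP1 hP2
    (hf _ inferInstance (under_ne_bot P hP2)), S.biUnion T, ?_, ?_, ?_⟩
  · intro P hP
    obtain ⟨Q, hQ, hPQ⟩ := mem_biUnion.1 hP
    rw [hmem Q hQ] at hPQ
    exact ⟨hPQ.1, over_ne_bot Q (hS Q hQ).2 P hPQ.2⟩
  · intro P hP1 hP2 hn
    refine h1 _ inferInstance (under_ne_bot P hP2) fun hS' => hn ?_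
    exact mem_biUnion.2 ⟨P.under (𝓞 F), hS', (hmem _ hS' P).2 ⟨hP1, ⟨rfl⟩⟩⟩
  · rw [h2, prod_biUnion]
    · congr 1
      · exact neg_one_pow_congr (by
          have := h.inf
          rw [Nat.even_add] at this
          exact this.symm)
      · refine prod_congr rfl fun Q hQ => ?_
        have h3 : ∀ P ∈ T Q, f (P.under (𝓞 F)) = f Q := fun P hP => by rw [hund Q hQ P hP]
        rw [prod_congr rfl h3, prod_const]
        have h4 : (T Q).card = (primesOver Q (𝓞 K)).ncard := by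
          rw [← hT Q hQ, Set.ncard_coe_finset]
        have h5 : Odd (T Q).card := by
          rw [h4]
          exact odd_ncard h Q (hS Q hQ).1 (hS Q hQ).2
        rcases loc_pm Q (hS Q hQ).1 (hS Q hQ).2 (hf Q (hS Q hQ).1 (hS Q hQ).2) with h | h
        · rw [h, one_pow]
        · rw [h, h5.neg_one_pow]
    · intro Q hQ Q' hQ' hne
      rw [Function.onFun, Finset.disjoint_left]
      intro P hP hP'
      exact hne ((hund Q hQ P hP).symm.trans (hund Q' hQ' P hP'))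

end

end Pool.Agent.Q97.PT
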