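import Mathlib
import Pool.Agent.Q97.PT.Trans
import Pool.Agent.Q97.PT.Rank
import Pool.Agent.Y667.OG.Rank

/-!
# Extensions of number fields with a Galois closure of odd degree
-/

set_option autoImplicit false

namespace Pool.Agent.Q97.PT

open Finset NumberField Pool.Agent.W307.RT

/-- `K/F` is an extension of number fields whose Galois closure has odd degree. -/
def OddClosure (F K : Type) [Field F] [NumberField F] [Field K] [NumberField K] [Algebra F K] :
    Prop :=
  ∃ (N : Type) (_ : Field N) (_ : NumberField N) (_ : Algebra F N) (_ : Algebra K N),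
    IsScalarTower F K N ∧ IsGalois F N ∧ Odd (Module.finrank F N)

section

variable {F K : Type} [Field F] [NumberField F] [Field K] [NumberField K] [Algebra F K]

lemma LO.of_closure (h : OddClosure F K) : LO F K := by
  obtain ⟨N, i1, i2, i3, i4, h1, h2, h3⟩ := h
  have hN : LO F N := LO.up LO.refl h3
  have : IsGalois K N := IsGalois.tower_top_of_isGalois F K N
  refine LO.down hN (K := K) ?_
  rw [← Module.finrank_mul_finrank F K N] at h3
  exact (Nat.odd_mul.1 h3).2

/-- the curve `y² = x³ + A x + B` over `K` -/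
def EK (K : Type) [Field K] [NumberField K] (A B : ℤ) : WeierstrassCurve K :=
  ⟨0, 0, 0, (A : K), (B : K)⟩

lemma EK_base (A B : ℤ) : (EK F A B).baseChange K = EK K A B := by
  apply WeierstrassCurve.ext
  · exact map_zero _
  · exact map_zero _
  · exact map_zero _
  · exact map_intCast _ _
  · exact map_intCast _ _

lemma EK_Q (A B : ℤ) : (Sh A B).baseChange K = EK K A B := by
  apply WeierstrassCurve.ext
  · exact map_zero _
  · exact map_zero _
  · exact map_zero _
  · exact map_intCast _ _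
  · exact map_intCast _ _

open Classical in
/-- the Mordell-Weil rank over `K` -/
noncomputable def rk (K : Type) [Field K] [NumberField K] (c : ℤ × ℤ) : ℕ :=
  Module.finrank ℤ (EK K c.1 c.2).toAffine.Point

open Classical in
lemma fin_pt {c : ℤ × ℤ} (hD : 4 * c.1 ^ 3 + 27 * c.2 ^ 2 ≠ 0) (hT : HasT 2 (Sh c.1 c.2)) :
    Module.Finite ℤ (EK K c.1 c.2).toAffine.Point := by
  rw [← EK_Q]
  exact Pool.Agent.Y667.OG.fin_K K hD hT

lemma rk_gal [IsGalois F K] (hodd : Odd (Module.finrank F K)) {c : ℤ × ℤ}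
    (hD : 4 * c.1 ^ 3 + 27 * c.2 ^ 2 ≠ 0) (hT : HasT 2 (Sh c.1 c.2)) :
    Even (rk K c + rk F c) := by
  classical
  have h1 := even_rank F K hodd (EK F c.1 c.2) (by
    rw [EK_base]
    exact fin_pt hD hT)
  rw [EK_base] at h1
  exact h1

/-- the parity of the rank -/
theorem rk_closure (h : OddClosure F K) {c : ℤ × ℤ} (hD : 4 * c.1 ^ 3 + 27 * c.2 ^ 2 ≠ 0)
    (hT : HasT 2 (Sh c.1 c.2)) : Even (rk K c + rk F c) := by
  obtain ⟨N, i1, i2, i3, i4, h1, h2, h3⟩ := h
  have : IsGalois K N := IsGalois.tower_top_of_isGalois F K N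
  have h4 : Odd (Module.finrank K N) := by
    rw [← Module.finrank_mul_finrank F K N] at h3
    exact (Nat.odd_mul.1 h3).2
  have e1 := rk_gal (F := F) (K := N) h3 hD hT
  have e2 := rk_gal (F := K) (K := N) h4 hD hT
  rw [Nat.even_add] at e1 e2 ⊢
  rw [← e2, e1]

open Classical in
lemma rk_dec (c : ℤ × ℤ) (d : DecidableEq K) :
    @Module.finrank ℤ (EK K c.1 c.2).toAffine.Point _
      (@WeierstrassCurve.Affine.Point.instAddCommGroup K _ (EK K c.1 c.2).toAffine
        d).toAddCommMonoid _ = rk K c := by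
  have h : d = fun a b => Classical.propDecidable (a = b) := Subsingleton.elim _ _
  subst h
  rfl

/-- the rank over `ℚ` -/
lemma rk_Q (c : ℤ × ℤ) : Module.finrank ℤ (Sh c.1 c.2).toAffine.Point = rk ℚ c :=
  rk_dec c _

lemma fin_Q {c : ℤ × ℤ} (hD : 4 * c.1 ^ 3 + 27 * c.2 ^ 2 ≠ 0) (hT : HasT 2 (Sh c.1 c.2)) :
    Module.Finite ℤ (Sh c.1 c.2).toAffine.Point := by
  classical
  have h : ∀ d : DecidableEq ℚ, @Module.Finite ℤ (EK ℚ c.1 c.2).toAffine.Point _
      (@WeierstrassCurve.Affine.Point.instAddCommGroup ℚ _ (EK ℚ c.1 c.2).toAffine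
        d).toAddCommMonoid _ := by
    intro d
    have h : d = fun a b => Classical.propDecidable (a = b) := Subsingleton.elim _ _
    subst h
    exact fin_pt hD hT
  exact h _

lemma gal_Q : @IsGalois ℚ _ ℚ _ DivisionRing.toRatAlgebra := by
  have h : (DivisionRing.toRatAlgebra : Algebra ℚ ℚ) = Algebra.id ℚ := Subsingleton.elim _ _
  rw [h]
  exact IsGalois.self ℚ

lemma root_Q {A B w : ℤ} (h : ∀ (K : Type) [Field K] [NumberField K] [IsGalois ℚ K],
    Odd (Module.finrank ℚ K) → RootNumberK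
      ((⟨0, 0, 0, (A : ℚ), (B : ℚ)⟩ : WeierstrassCurve ℚ).map (algebraMap ℚ K)) w) :
    RootNumberK (EK ℚ A B) w := by
  have h1 := @h ℚ _ _ gal_Q (by
    have h : (DivisionRing.toRatAlgebra : Algebra ℚ ℚ) = Algebra.id ℚ := Subsingleton.elim _ _
    rw [h, Module.finrank_self]
    exact odd_one)
  have e : ∀ f : ℚ →+* ℚ, (⟨0, 0, 0, (A : ℚ), (B : ℚ)⟩ : WeierstrassCurve ℚ).map f =
      EK ℚ A B := by
    intro f
    apply WeierstrassCurve.ext
    · exact map_zero _
    · exact map_zero _
    · exact map_zero _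
    · exact map_intCast _ _
    · exact map_intCast _ _
  rw [e] at h1
  exact h1

/-- the root number -/
theorem root_closure (h : OddClosure F K) {A B : ℤ} {w : ℤ} (hw : RootNumberK (EK F A B) w) :
    RootNumberK (EK K A B) w := by
  rw [← EK_base (F := F)]
  exact root_up (LO.of_closure h) hw

end

end Pool.Agent.Q97.PT
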